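import Pool.Agent.E8helper46.PF.Stm4
import Pool.Agent.E8helper71.PF.Ch

/-!
# PF (helper46), part RES: the `p`-derived series of a free group has trivial intersection

By induction on the length of the reduced word: the closed path of a word `a` of `pd k` in the
Cayley graph of `F / pd k` passes through distinct vertices, if `k` is large, so it traverses its
last edge only once, and therefore `a` is not in `pd (k + 1)`.
-/

set_option autoImplicit false

namespace Pool.Agent.E8helper69.PF

open Pool.Agent.E8helper46.PF Pool.Agent.E8helper71.PF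

variable {r p : ℕ}

theorem phi_normal {G : Type*} [Group G] {D : Subgroup G} (hD : D.Normal) : (phi p D).Normal := by
  refine ⟨fun n hn g => ?_⟩
  unfold phi at hn ⊢
  induction hn using Subgroup.closure_induction with
  | mem x hx =>
    apply Subgroup.subset_closure
    rcases hx with ⟨a, ha, b, hb, rfl⟩ | ⟨a, ha, rfl⟩
    · exact Or.inl ⟨g * a * g⁻¹, hD.conj_mem a ha g, g * b * g⁻¹, hD.conj_mem b hb g, by group⟩
    · exact Or.inr ⟨g * a * g⁻¹, hD.conj_mem a ha g, by rw [conj_pow]⟩
  | one => rw [mul_one, mul_inv_cancel]; exact one_mem _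
  | mul x y _ _ hx hy =>
    have e : g * (x * y) * g⁻¹ = g * x * g⁻¹ * (g * y * g⁻¹) := by group
    rw [e]
    exact mul_mem hx hy
  | inv x _ hx =>
    have e : g * x⁻¹ * g⁻¹ = (g * x * g⁻¹)⁻¹ := by group
    rw [e]
    exact inv_mem hx

theorem pd_normal (p : ℕ) (G : Type*) [Group G] (k : ℕ) : (pd p G k).Normal := by
  induction k with
  | zero =>
    change (⊤ : Subgroup G).Normal
    infer_instance
  | succ k ih => exact phi_normal ih

theorem pd_anti (p : ℕ) (G : Type*) [Group G] : Antitone (pd p G) :=
  antitone_nat_of_succ_le fun _ => phi_le _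

/-- the letter -/
def lt (y : Fin r × Bool) : FreeGroup (Fin r) := FreeGroup.mk [y]

theorem mk_cons (y : Fin r × Bool) (L : List (Fin r × Bool)) :
    FreeGroup.mk (y :: L) = lt y * FreeGroup.mk L := by
  unfold lt
  rw [FreeGroup.mul_mk]
  rfl

theorem lt_true (x : Fin r) : lt (x, true) = FreeGroup.of x := rfl

theorem lt_false (x : Fin r) : lt (x, false) = (FreeGroup.of x)⁻¹ := by
  unfold lt
  rw [FreeGroup.of, FreeGroup.inv_mk]
  rfl

section

variable {R : Type*} [Group R] [DecidableEq R] (θ : FreeGroup (Fin r) →* R)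

/-- the edge of the letter `y` from the point `g` -/
def edge (y : Fin r × Bool) (g : R) : R × Fin r :=
  if y.2 = true then (g, y.1) else ((θ (FreeGroup.of y.1))⁻¹ * g, y.1)

theorem chi_lt (y : Fin r × Bool) (g : R) :
    chi p θ (lt y) g = Pi.single (edge θ y g) (if y.2 = true then 1 else -1) := by
  obtain ⟨x, b⟩ := y
  cases b
  · rw [lt_false, chi_inv_of]
    simp only [edge, Bool.false_eq_true, if_false]
    rw [← Pi.single_neg]
  · rw [lt_true, chi_of]
    simp only [edge, if_true]

/-- an edge in the support of the chain is traversed -/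
theorem chi_supp (L : List (Fin r × Bool)) (g : R) (e : R × Fin r)
    (h : chi p θ (FreeGroup.mk L) g e ≠ 0) :
    ∃ (L₁ : List (Fin r × Bool)) (y : Fin r × Bool) (L₂ : List (Fin r × Bool)),
      L = L₁ ++ y :: L₂ ∧ e = edge θ y (θ (FreeGroup.mk L₂) * g) := by
  induction L with
  | nil =>
    exfalso
    apply h
    have : (FreeGroup.mk [] : FreeGroup (Fin r)) = 1 := rfl
    rw [this, chi_one]
    rfl
  | cons y L ih =>
    rw [mk_cons, chi_mul, Pi.add_apply] at h
    by_cases h1 : chi p θ (FreeGroup.mk L) g e = 0
    · rw [h1, zero_add, chi_lt] at h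
      refine ⟨[], y, L, rfl, ?_⟩
      by_contra hne
      exact h (Pi.single_eq_of_ne hne _)
    · obtain ⟨L₁, y', L₂, hL, he⟩ := ih h1
      exact ⟨y :: L₁, y', L₂, by rw [hL]; rfl, he⟩

end

theorem mk_ne_one {L : List (Fin r × Bool)} (h : FreeGroup.IsReduced L) (hne : L ≠ []) :
    FreeGroup.mk L ≠ 1 := by
  intro h1
  apply hne
  have h2 := congrArg FreeGroup.toWord h1
  rw [FreeGroup.toWord_mk, h.reduce_eq, FreeGroup.toWord_one] at h2
  exact h2

/-- a consecutive sublist of a reduced word is reduced -/
theorem isReduced_sub {l L : List (Fin r × Bool)} (h : FreeGroup.IsReduced L) (hl : l <:+: L) :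
    FreeGroup.IsReduced l := by
  obtain ⟨s, t, e⟩ := hl
  rw [← e] at h
  exact (List.isChain_append.1 (List.isChain_append.1 h).1).2.1

theorem key (hp : p.Prime) : ∀ (n : ℕ) (L : List (Fin r × Bool)), L.length ≤ n → L ≠ [] →
    FreeGroup.IsReduced L → ∃ k, FreeGroup.mk L ∉ pd p (FreeGroup (Fin r)) k := by
  intro n
  induction n with
  | zero =>
    intro L hL hne
    exact absurd (List.length_eq_zero_iff.1 (Nat.le_zero.1 hL)) hne
  | succ n ih =>
    intro L hL hne hred
    -- a common `k` for all shorter subwords
    have hk : ∃ k, ∀ l ∈ L.sublists, l ≠ [] → FreeGroup.IsReduced l → l.length ≤ n →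
        FreeGroup.mk l ∉ pd p (FreeGroup (Fin r)) k := by
      have : ∀ S : List (List (Fin r × Bool)), ∃ k, ∀ l ∈ S, l ≠ [] → FreeGroup.IsReduced l →
          l.length ≤ n → FreeGroup.mk l ∉ pd p (FreeGroup (Fin r)) k := by
        intro S
        induction S with
        | nil => exact ⟨0, fun l hl => absurd hl List.not_mem_nil⟩
        | cons l S ihS =>
          obtain ⟨k, hk⟩ := ihS
          by_cases hl : l ≠ [] ∧ FreeGroup.IsReduced l ∧ l.length ≤ n
          · obtain ⟨k', hk'⟩ := ih l hl.2.2 hl.1 hl.2.1
            refine ⟨max k k', fun l' hl' h1 h2 h3 h4 => ?_⟩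
            rcases List.mem_cons.1 hl' with rfl | hl'
            · exact hk' (pd_anti p _ (le_max_right k k') h4)
            · exact hk l' hl' h1 h2 h3 (pd_anti p _ (le_max_left k k') h4)
          · refine ⟨k, fun l' hl' h1 h2 h3 => ?_⟩
            rcases List.mem_cons.1 hl' with rfl | hl'
            · exact absurd ⟨h1, h2, h3⟩ hl
            · exact hk l' hl' h1 h2 h3
      exact this _
    obtain ⟨k, hk⟩ := hk
    by_cases hmem : FreeGroup.mk L ∉ pd p (FreeGroup (Fin r)) k
    · exact ⟨k, hmem⟩
    push Not at hmem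
    refine ⟨k + 1, fun hmem1 => ?_⟩
    -- consecutive sublists
    have hinf : ∀ l : List (Fin r × Bool), l <:+: L → l ≠ [] → l.length ≤ n →
        FreeGroup.mk l ∉ pd p (FreeGroup (Fin r)) k := by
      intro l hl h1 h2
      exact hk l (List.mem_sublists.2 hl.sublist) h1 (isReduced_sub hred hl) h2
    have := pd_normal p (FreeGroup (Fin r)) k
    classical
    set θ : FreeGroup (Fin r) →* FreeGroup (Fin r) ⧸ pd p (FreeGroup (Fin r)) k :=
      QuotientGroup.mk' _ with hθ
    have hker : θ.ker = pd p (FreeGroup (Fin r)) k := QuotientGroup.ker_mk' _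
    have hth : ∀ g : FreeGroup (Fin r), θ g = 1 ↔ g ∈ pd p (FreeGroup (Fin r)) k := by
      intro g
      have h2 : g ∈ θ.ker ↔ g ∈ pd p (FreeGroup (Fin r)) k :=
        Eq.to_iff (congrArg (fun H : Subgroup (FreeGroup (Fin r)) => g ∈ H) hker)
      exact MonoidHom.mem_ker.symm.trans h2
    have hchi : ∀ g, chi p θ (FreeGroup.mk L) g = 0 := by
      refine (chi_phi θ ?_).2
      rw [hker]
      exact hmem1
    obtain ⟨y, L', rfl⟩ := List.exists_cons_of_ne_nil hne
    have hlen : L'.length ≤ n := by
      rw [List.length_cons] at hL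
      omega
    have ha : θ (FreeGroup.mk (y :: L')) = 1 := (hth _).2 hmem
    rw [mk_cons, map_mul] at ha
    have h0 := congrFun (hchi 1) (edge θ y (θ (FreeGroup.mk L') * 1))
    rw [mk_cons, chi_mul, Pi.add_apply, chi_lt, Pi.single_eq_same] at h0
    have hfact : Fact p.Prime := ⟨hp⟩
    have h1 : chi p θ (FreeGroup.mk L') 1 (edge θ y (θ (FreeGroup.mk L') * 1)) ≠ 0 := by
      intro h
      rw [h, zero_add] at h0
      change (if y.2 = true then (1 : ZMod p) else -1) = 0 at h0
      split_ifs at h0
      · exact one_ne_zero h0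
      · exact one_ne_zero (neg_eq_zero.1 h0)
    obtain ⟨L₁, y', L₂, hLL, he⟩ := chi_supp θ L' 1 _ h1
    rw [mul_one, mul_one] at he
    have hgen : y.1 = y'.1 := by
      have := congrArg Prod.snd he
      unfold edge at this
      split_ifs at this <;> exact this
    have htail := congrArg Prod.fst he
    subst hLL
    rw [List.length_append, List.length_cons] at hlen
    -- the four cases
    have hsplit : ∀ A B : List (Fin r × Bool), θ (FreeGroup.mk (A ++ B)) =
        θ (FreeGroup.mk A) * θ (FreeGroup.mk B) := by
      intro A B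
      rw [← map_mul, FreeGroup.mul_mk]
    obtain ⟨x, b⟩ := y
    obtain ⟨x', b'⟩ := y'
    change x = x' at hgen
    subst hgen
    have e1 : θ (FreeGroup.mk ((x, b') :: L₂)) = θ (lt (x, b')) * θ (FreeGroup.mk L₂) := by
      rw [mk_cons, map_mul]
    cases b
    · -- `y = x⁻¹`
      rw [lt_false, map_inv] at ha
      cases b'
      · -- `y' = x⁻¹`
        simp only [edge, Bool.false_eq_true, if_false] at htail
        rw [ha] at htail
        rw [lt_false, map_inv, ← htail] at e1
        refine hinf ((x, false) :: L₂) ⟨(x, false) :: L₁, [], by simp⟩ (by simp) ?_ ((hth _).1 e1)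
        rw [List.length_cons]
        omega
      · -- `y' = x`
        simp only [edge, Bool.false_eq_true, if_false, if_true] at htail
        rw [ha] at htail
        by_cases hL2 : L₂ = []
        · subst hL2
          by_cases hL1 : L₁ = []
          · subst hL1
            have := (FreeGroup.isReduced_cons_cons.1 hred).1 rfl
            simp at this
          · refine hinf L₁ ⟨[(x, false)], [(x, true)], by simp⟩ hL1 (by omega) ((hth _).1 ?_)
            rw [hsplit] at ha
            have e2 : θ (FreeGroup.mk [(x, true)]) = θ (FreeGroup.of x) := rfl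
            rw [e2] at ha
            have : θ (FreeGroup.mk L₁) = θ (FreeGroup.of x) * ((θ (FreeGroup.of x))⁻¹ *
                (θ (FreeGroup.mk L₁) * θ (FreeGroup.of x))) * (θ (FreeGroup.of x))⁻¹ := by group
            rw [this, ha]
            group
        · refine hinf L₂ ⟨(x, false) :: (L₁ ++ [(x, true)]), [], by simp⟩ hL2 (by omega)
            ((hth _).1 htail.symm)
    · -- `y = x`
      cases b'
      · -- `y' = x⁻¹`
        simp only [edge, Bool.false_eq_true, if_false, if_true] at htail
        by_cases hL1 : L₁ = []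
        · subst hL1
          have := (FreeGroup.isReduced_cons_cons.1 hred).1 rfl
          simp at this
        · refine hinf L₁ ⟨[(x, true)], (x, false) :: L₂, by simp⟩ hL1 (by omega) ((hth _).1 ?_)
          rw [hsplit, e1, lt_false, map_inv] at htail
          exact mul_eq_right.1 htail
      · -- `y' = x`
        simp only [edge, if_true] at htail
        refine hinf (L₁ ++ [(x, true)]) ⟨[(x, true)], L₂, by simp⟩ (by simp) ?_ ((hth _).1 ?_)
        · rw [List.length_append, List.length_singleton]
          omega
        · rw [hsplit, e1, ← mul_assoc] at htail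
          rw [hsplit]
          exact mul_eq_right.1 htail

theorem t_RES : S_RES := by
  intro p hp r a ha
  have h1 : FreeGroup.mk a.toWord = a := FreeGroup.mk_toWord
  have hne : a.toWord ≠ [] := fun h => ha (FreeGroup.toWord_eq_nil_iff.1 h)
  obtain ⟨k, hk⟩ := key hp a.toWord.length a.toWord le_rfl hne FreeGroup.isReduced_toWord
  rw [h1] at hk
  exact ⟨k, hk⟩

end Pool.Agent.E8helper69.PF
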